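import Pool.Agent.PFC.StmtsB3

/-!
# Squad PFC, block B3, row SPN (helper47): generators of the augmentation ideal modulo `Ua`
-/

open scoped BigOperators

noncomputable section

namespace Pool.Agent.PFC.B3.H47

open MvPolynomial

/-- The span over `F` of a finite `ZMod ℓ`-subspace `W` has dimension at most the dimension of
`W`, so `ℓ ^ dim ≤ |W|`. -/
theorem span_card (ℓ : ℕ) [Fact ℓ.Prime] (F M : Type) [Field F] [CharP F ℓ] [AddCommGroup M]
    [Module F M] (W : AddSubgroup M) [Finite W] :
    ℓ ^ Module.finrank F (Submodule.span F (W : Set M)) ≤ Nat.card W := by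
  classical
  letI : Algebra (ZMod ℓ) F := ZMod.algebra F ℓ
  letI : Module (ZMod ℓ) M := Module.compHom M (algebraMap (ZMod ℓ) F)
  let W' : Submodule (ZMod ℓ) M := AddSubgroup.toZModSubmodule ℓ W
  have hW' : (W' : Set M) = (W : Set M) := AddSubgroup.coe_toZModSubmodule ℓ W
  have : Finite W' := by
    have h : Finite (W : Set M) := ‹Finite W›
    rw [← hW'] at h
    exact h
  have : Module.Finite (ZMod ℓ) W' := Module.Finite.of_finite
  have hcard : Nat.card W = ℓ ^ Module.finrank (ZMod ℓ) W' := by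
    have h1 : Nat.card W = Nat.card W' := by
      show Nat.card (W : Set M) = Nat.card (W' : Set M)
      rw [hW']
    rw [h1, Module.natCard_eq_pow_finrank (K := ZMod ℓ), Nat.card_zmod]
  rw [hcard]
  refine Nat.pow_le_pow_right (Fact.out : ℓ.Prime).pos ?_
  let b := Module.finBasis (ZMod ℓ) W'
  have hspan : Submodule.span F (W : Set M) ≤
      Submodule.span F (Set.range fun i => (b i : M)) := by
    rw [Submodule.span_le]
    intro w hw
    have hw' : w ∈ W' := by
      show w ∈ (W' : Set M)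
      rw [hW']
      exact hw
    have h2 := b.sum_repr ⟨w, hw'⟩
    have h3 : w = ∑ i, (b.repr ⟨w, hw'⟩ i) • (b i : M) := by
      have h4 := congrArg (fun z : W' => (z : M)) h2
      simp only [AddSubmonoidClass.coe_finsetSum, Submodule.coe_smul] at h4
      exact h4.symm
    rw [h3]
    refine Submodule.sum_mem _ fun i _ => ?_
    show (algebraMap (ZMod ℓ) F (b.repr ⟨w, hw'⟩ i)) • (b i : M) ∈ _
    exact Submodule.smul_mem _ _ (Submodule.subset_span ⟨i, rfl⟩)
  calc Module.finrank F (Submodule.span F (W : Set M))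
      ≤ Module.finrank F (Submodule.span F (Set.range fun i => (b i : M))) := by
        have : Module.Finite F (Submodule.span F (Set.range fun i => (b i : M))) :=
          Module.Finite.span_of_finite F (Set.finite_range _)
        exact Submodule.finrank_mono hspan
    _ ≤ Fintype.card (Fin (Module.finrank (ZMod ℓ) W')) := finrank_range_le_card _
    _ = Module.finrank (ZMod ℓ) W' := Fintype.card_fin _

theorem ua_le (ℓ : ℕ) (F V : Type) [Field F] [CommGroup V] (a : ℕ) :
    Ua F V ℓ a ≤ Au F V := by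
  refine sup_le ?_ ?_
  · refine Submodule.span_le.2 ?_
    rintro z ⟨v, -, rfl⟩
    exact Submodule.subset_span ⟨v, rfl⟩
  · refine Submodule.span_le.2 ?_
    rintro z ⟨v, w, rfl⟩
    have h : (MonoidAlgebra.of F V v - 1) * (MonoidAlgebra.of F V w - 1) =
        (MonoidAlgebra.of F V (v * w) - 1) - (MonoidAlgebra.of F V v - 1) -
          (MonoidAlgebra.of F V w - 1) := by
      rw [map_mul]
      ring
    rw [h]
    exact Submodule.sub_mem _ (Submodule.sub_mem _ (Submodule.subset_span ⟨v * w, rfl⟩)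
      (Submodule.subset_span ⟨v, rfl⟩)) (Submodule.subset_span ⟨w, rfl⟩)

/-- `v ↦ v - 1` modulo `Ua` -/
def cl (ℓ : ℕ) (F V : Type) [Field F] [CommGroup V] (a : ℕ) :
    V →* Multiplicative (MonoidAlgebra F V ⧸ Ua F V ℓ a) where
  toFun v := Multiplicative.ofAdd ((Ua F V ℓ a).mkQ (MonoidAlgebra.of F V v - 1))
  map_one' := by
    rw [map_one, sub_self, map_zero]
    rfl
  map_mul' v w := by
    rw [← ofAdd_add, ← map_add]
    congr 1
    have h : MonoidAlgebra.of F V (v * w) - 1 =
        (MonoidAlgebra.of F V v - 1) * (MonoidAlgebra.of F V w - 1) +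
          ((MonoidAlgebra.of F V v - 1) + (MonoidAlgebra.of F V w - 1)) := by
      rw [map_mul]
      ring
    rw [h, map_add, add_eq_right]
    rw [← LinearMap.mem_ker, Submodule.ker_mkQ]
    exact (le_sup_right : Au2 F V ≤ Ua F V ℓ a) (Submodule.subset_span ⟨v, w, rfl⟩)

theorem spn : SpnStmt := by
  intro ℓ hl F V _ _ _ _ a
  refine ⟨ua_le ℓ F V a, ?_⟩
  set f := cl ℓ F V a with hf
  have hfv : ∀ v, f v = Multiplicative.ofAdd ((Ua F V ℓ a).mkQ (MonoidAlgebra.of F V v - 1)) :=
    fun v => rfl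
  -- the kernel contains Ka
  have hker : Ka V ℓ a ≤ f.ker := by
    refine sup_le ?_ ?_
    · intro v hv
      rw [MonoidHom.mem_ker] at hv ⊢
      have hv' : v ^ ℓ ^ a = 1 := hv
      rw [hfv]
      have : MonoidAlgebra.of F V v - 1 ∈ Ua F V ℓ a :=
        (le_sup_left : Ia F V ℓ a ≤ Ua F V ℓ a) (Submodule.subset_span ⟨v, hv', rfl⟩)
      have h0 : (Ua F V ℓ a).mkQ (MonoidAlgebra.of F V v - 1) = 0 := by
        rw [← LinearMap.mem_ker, Submodule.ker_mkQ]
        exact this
      rw [h0]
      rfl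
    · rintro _ ⟨v, rfl⟩
      rw [MonoidHom.mem_ker]
      show f (v ^ ℓ) = 1
      rw [map_pow, hfv, ← ofAdd_nsmul]
      have h0 : ℓ • (Ua F V ℓ a).mkQ (MonoidAlgebra.of F V v - 1) = 0 := by
        rw [← Nat.cast_smul_eq_nsmul F, CharP.cast_eq_zero, zero_smul]
      rw [h0]
      rfl
  let W : AddSubgroup (MonoidAlgebra F V ⧸ Ua F V ℓ a) := Subgroup.toAddSubgroup' f.range
  have hWset : (W : Set (MonoidAlgebra F V ⧸ Ua F V ℓ a)) =
      Set.range fun v : V => (Ua F V ℓ a).mkQ (MonoidAlgebra.of F V v - 1) := by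
    ext z
    constructor
    · rintro ⟨v, hv⟩
      exact ⟨v, congrArg Multiplicative.toAdd hv⟩
    · rintro ⟨v, hv⟩
      exact ⟨v, congrArg Multiplicative.ofAdd hv⟩
  have hcardW : Nat.card W = f.ker.index := by
    rw [Subgroup.index_ker]
    rfl
  have : Finite W := by
    have h : (Set.range fun v : V =>
      (Ua F V ℓ a).mkQ (MonoidAlgebra.of F V v - 1)).Finite := Set.finite_range _
    rw [← hWset] at h
    exact h
  have h1 := span_card ℓ F (MonoidAlgebra F V ⧸ Ua F V ℓ a) W
  have h2 : Submodule.span F (W : Set (MonoidAlgebra F V ⧸ Ua F V ℓ a)) =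
      (Au F V).map (Ua F V ℓ a).mkQ := by
    rw [hWset, Au, Submodule.map_span, ← Set.range_comp]
    rfl
  rw [h2] at h1
  have : Module.Finite F (MonoidAlgebra F V) := by
    have : Fintype V := Fintype.ofFinite V
    exact Module.Finite.equiv (MonoidAlgebra.coeffLinearEquiv F).symm
  have h3 : Module.finrank F (Au F V) - Module.finrank F (Ua F V ℓ a) ≤
      Module.finrank F ((Au F V).map (Ua F V ℓ a).mkQ) := by
    have h4 := LinearMap.finrank_range_add_finrank_ker ((Ua F V ℓ a).mkQ.domRestrict (Au F V))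
    have h5 : LinearMap.range ((Ua F V ℓ a).mkQ.domRestrict (Au F V)) =
        (Au F V).map (Ua F V ℓ a).mkQ := by
      rw [LinearMap.domRestrict, LinearMap.range_comp, Submodule.range_subtype]
    have h6 : Module.finrank F (LinearMap.ker ((Ua F V ℓ a).mkQ.domRestrict (Au F V))) ≤
        Module.finrank F (Ua F V ℓ a) := by
      rw [← Submodule.finrank_map_subtype_eq]
      refine Submodule.finrank_mono ?_
      rintro _ ⟨z, hz, rfl⟩
      have hz' : (Ua F V ℓ a).mkQ (z : MonoidAlgebra F V) = 0 := hz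
      rw [← LinearMap.mem_ker, Submodule.ker_mkQ] at hz'
      exact hz'
    rw [h5] at h4
    omega
  calc ℓ ^ (Module.finrank F (Au F V) - Module.finrank F (Ua F V ℓ a))
      ≤ ℓ ^ Module.finrank F ((Au F V).map (Ua F V ℓ a).mkQ) :=
        Nat.pow_le_pow_right hl.out.pos h3
    _ ≤ Nat.card W := h1
    _ = f.ker.index := hcardW
    _ ≤ (Ka V ℓ a).index := Subgroup.index_antitone hker

end Pool.Agent.PFC.B3.H47
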