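import Pool.Agent.PFC.StmtsB3

/-!
# Squad PFC, block B3, row NKF (helper47): the order has the properties `Nak`
-/

open scoped BigOperators

noncomputable section

namespace Pool.Agent.PFC.B3.H47

open MvPolynomial

theorem nkf (hC : CycStmt) (hA : AnnStmt) (hN : NrmStmt) (hG : AugStmt) (hS : SsrStmt) :
    NkfStmt := by
  intro ℓ hl F I E Λ _ _ _ _ _ _ _ _ a p i0 η P ha hη hE
  have hl2 : 2 ≤ ℓ := hl.out.two_le
  have h2 : ∀ i, 2 ≤ ℓ ^ a i := fun i =>
    le_trans hl2 (Nat.le_self_pow (by have := ha i; omega) ℓ)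
  have hη' : ∀ i e, (ηη (PowerSeries F) η) i e ^ ℓ ^ a i = (ηη (PowerSeries F) η) (p i) e := by
    intro i e
    show (Units.map (algebraMap F (PowerSeries F) : F →* PowerSeries F)) (η i e) ^ ℓ ^ a i =
      (Units.map (algebraMap F (PowerSeries F) : F →* PowerSeries F)) (η (p i) e)
    rw [← map_pow, hη]
  obtain ⟨sg, hsg, hsgn⟩ := hN (PowerSeries F) I E Λ (fun i => ℓ ^ a i) p
    (cc (PowerSeries F) I PowerSeries.X i0) (ηη (PowerSeries F) η) P (p i0)
  have hcyc := hC (PowerSeries F) I Λ (fun i => ℓ ^ a i) p PowerSeries.X i0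
    (fun i => P.j (X i)) h2 P.rel
  have hQ : 2 ≤ ∏ i ∈ Finset.univ.filter (fun i => p.SameCycle i0 i), ℓ ^ a i := by
    have hmem : i0 ∈ Finset.univ.filter (fun i => p.SameCycle i0 i) := by
      rw [Finset.mem_filter]
      exact ⟨Finset.mem_univ _, Equiv.Perm.SameCycle.refl p i0⟩
    have h1 : ℓ ^ a i0 ∣ ∏ i ∈ Finset.univ.filter (fun i => p.SameCycle i0 i), ℓ ^ a i :=
      Finset.dvd_prod_of_mem (fun i => ℓ ^ a i) hmem
    have h3 : 0 < ∏ i ∈ Finset.univ.filter (fun i => p.SameCycle i0 i), ℓ ^ a i :=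
      Finset.prod_pos fun i _ => pow_pos hl.out.pos _
    exact le_trans (h2 i0) (Nat.le_of_dvd h3 h1)
  refine ⟨{ x := P.j (X (p i0))
            sg := sg
            nrm := hsgn
            sgs := hsg
            Q := ∏ i ∈ Finset.univ.filter (fun i => p.SameCycle i0 i), ℓ ^ a i
            two := hQ
            nil := hcyc.2
            ann := ?_
            ss := ?_
            ε := P.ε
            aug := ?_ }, rfl⟩
  · intro s hs b hb
    exact hA F I E Λ (fun i => ℓ ^ a i) p i0 (ηη (PowerSeries F) η) P h2 hη' s hs b hb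
  · intro L T _ _ _ _ _ _ τ hτ U hU
    exact hS ℓ F I E Λ a p i0 (ηη (PowerSeries F) η) P ha hE L T τ hτ U hU
  · intro θ
    obtain ⟨f, hf, hf'⟩ := hG (PowerSeries F) I E Λ (fun i => ℓ ^ a i) p
      (cc (PowerSeries F) I PowerSeries.X i0) (ηη (PowerSeries F) η) P
      ((Units.map (algebraMap F (PowerSeries F) : F →* PowerSeries F)).comp θ) h2
    refine ⟨f, hf _, fun e => ?_⟩
    rw [hf' e]
    rfl

end Pool.Agent.PFC.B3.H47
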